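import Pool.Agent.Helper64.PQ.Goals

set_option autoImplicit false

/-! Project PQ, goal A5 (ordered products of labels). -/

namespace Pool.Agent.Helper40.PQ

open Pool.Agent.Helper64.PQ

/-- Existence of sorted lists. -/
theorem exists_sorted {X : Type} (r : X → X → Prop) (s : Set X) (hs : s.Finite)
    (htot : ∀ a ∈ s, ∀ b ∈ s, a ≠ b → r a b ∨ r b a)
    (htr : ∀ a ∈ s, ∀ b ∈ s, ∀ c ∈ s, a ≠ b → b ≠ c → a ≠ c → r a b → r b c → r a c) :
    ∃ L : List X, L.Nodup ∧ (∀ x, x ∈ L ↔ x ∈ s) ∧ L.Pairwise r := by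
  classical
  let q : s → s → Prop := fun a b => a = b ∨ r a b
  have h1 : Std.Total q := by
    constructor
    intro a b
    by_cases h : a = b
    · exact Or.inl (Or.inl h)
    · have h' : (a : X) ≠ b := fun h' => h (Subtype.ext h')
      rcases htot a a.2 b b.2 h' with h'' | h''
      · exact Or.inl (Or.inr h'')
      · exact Or.inr (Or.inr h'')
  have h2 : IsTrans s q := by
    constructor
    intro a b c hab hbc
    rcases hab with hab | hab
    · rw [hab]; exact hbc
    · rcases hbc with hbc | hbc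
      · rw [← hbc]; exact Or.inr hab
      · by_cases h3 : a = c
        · exact Or.inl h3
        by_cases h4 : a = b
        · rw [h4]; exact Or.inr hbc
        by_cases h5 : b = c
        · rw [← h5]; exact Or.inr hab
        exact Or.inr (htr a a.2 b b.2 c c.2 (fun h => h4 (Subtype.ext h))
          (fun h => h5 (Subtype.ext h)) (fun h => h3 (Subtype.ext h)) hab hbc)
  haveI := hs.fintype
  have hp : (List.insertionSort q (Finset.univ : Finset s).toList).Pairwise q :=
    List.pairwise_insertionSort q _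
  have hperm := List.perm_insertionSort q (Finset.univ : Finset s).toList
  have hnd : (List.insertionSort q (Finset.univ : Finset s).toList).Nodup :=
    hperm.nodup_iff.2 (Finset.nodup_toList _)
  refine ⟨(List.insertionSort q (Finset.univ : Finset s).toList).map Subtype.val, ?_, ?_, ?_⟩
  · exact hnd.map Subtype.val_injective
  · intro x
    rw [List.mem_map]
    constructor
    · rintro ⟨a, _, rfl⟩
      exact a.2
    · intro hx
      exact ⟨⟨x, hx⟩, hperm.mem_iff.2 (by simp), rfl⟩
  · rw [List.pairwise_map]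
    refine (hp.and hnd).imp ?_
    rintro a b ⟨h | h, h'⟩
    · exact absurd h h'
    · exact h

/-- Uniqueness of sorted lists. -/
theorem sorted_unique {X : Type} (r : X → X → Prop) (L L' : List X) (h1 : L.Nodup)
    (h2 : L'.Nodup) (hm : ∀ x, x ∈ L ↔ x ∈ L') (hp : L.Pairwise r) (hp' : L'.Pairwise r)
    (has : ∀ a ∈ L, ∀ b ∈ L, a ≠ b → r a b → ¬ r b a) : L = L' := by
  have hperm : L.Perm L' := (List.perm_ext_iff_of_nodup h1 h2).2 hm
  refine List.Perm.eq_of_pairwise ?_ hp hp' hperm
  intro a b ha hb hab hba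
  by_contra h
  exact has a ha b ((hm b).2 hb) h hab hba

section main

variable {X : Type} {t : ℕ} {d : X → X → X → ℕ} {E : X → X → X → Prop} {D : X → X → X → ℕ}

theorem exists_lst (h3 : GoalA3) (hP : Proj t d) (hE : Exact t d E D) (y z : X) :
    ∃ L : List X, L.Nodup ∧ (∀ x, x ∈ L ↔ x ∈ HH t D y z) ∧ L.Pairwise (fun x x' => E x x' z) := by
  obtain ⟨hfin, -, htot, -, -, htr⟩ := h3 X t d E D hP hE y z
  exact exists_sorted _ _ hfin htot (fun a ha b hb c hc h1 h2 h3 h4 h5 =>
    htr a ha b hb c hc h1 h2 h3 h4 h5)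

/-- The sorted list of the deep elements. -/
noncomputable def lst (h3 : GoalA3) (hP : Proj t d) (hE : Exact t d E D) (y z : X) : List X :=
  Classical.choose (exists_lst h3 hP hE y z)

theorem lst_spec (h3 : GoalA3) (hP : Proj t d) (hE : Exact t d E D) (y z : X) :
    (lst h3 hP hE y z).Nodup ∧ (∀ x, x ∈ lst h3 hP hE y z ↔ x ∈ HH t D y z) ∧
      (lst h3 hP hE y z).Pairwise (fun x x' => E x x' z) :=
  Classical.choose_spec (exists_lst h3 hP hE y z)

theorem lst_inv (h3 : GoalA3) (hP : Proj t d) (hE : Exact t d E D) (g : Equiv.Perm X)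
    (hg : Pres d g) (y z : X) :
    lst h3 hP hE (g y) (g z) = (lst h3 hP hE y z).map g := by
  obtain ⟨a1, a2, a3⟩ := lst_spec h3 hP hE y z
  obtain ⟨b1, b2, b3⟩ := lst_spec h3 hP hE (g y) (g z)
  have hasym := (h3 X t d E D hP hE (g y) (g z)).2.2.2.1
  refine sorted_unique (fun x x' => E x x' (g z)) _ _ b1 (a1.map g.injective) ?_ b3 ?_ ?_
  · intro x
    rw [b2, List.mem_map]
    constructor
    · intro hx
      refine ⟨g.symm x, ?_, by simp⟩
      rw [a2]
      obtain ⟨c1, c2, c3⟩ := hx
      have e1 : y ≠ g.symm x := fun h => c1 (by rw [h]; simp)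
      have e2 : z ≠ g.symm x := fun h => c2 (by rw [h]; simp)
      refine ⟨e1.symm, e2.symm, ?_⟩
      have := (hE.inv g hg (g.symm x) y z e1 e2).2
      rw [Equiv.apply_symm_apply] at this
      rw [← this]
      exact c3
    · rintro ⟨x', hx', rfl⟩
      rw [a2] at hx'
      obtain ⟨c1, c2, c3⟩ := hx'
      refine ⟨fun h => c1 (g.injective h), fun h => c2 (g.injective h), ?_⟩
      rw [(hE.inv g hg x' y z c1.symm c2.symm).2]
      exact c3
  · rw [List.pairwise_map]
    have : (lst h3 hP hE y z).Pairwise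
        (fun x x' => x ∈ lst h3 hP hE y z ∧ x' ∈ lst h3 hP hE y z ∧ (E x x' z ∧ x ≠ x')) := by
      exact List.Pairwise.and_mem.1 (a3.and a1)
    refine this.imp ?_
    rintro x x' ⟨hx, hx', h, hne⟩
    rw [a2] at hx
    exact ((hE.inv g hg x x' z hne.symm hx.2.1.symm).1).2 h
  · intro a ha b hb hab h h'
    rw [b2] at ha hb
    exact hasym a ha b hb hab h h'

/-- The product of the labels. -/
noncomputable def phi (h3 : GoalA3) (hP : Proj t d) (hE : Exact t d E D) {Q : Type} [Group Q]
    (l : ℕ → ℕ → Q) (i : ℕ) (y z : X) : Q :=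
  ((lst h3 hP hE y z).map (fun x => l i (D x y z))).prod

open Classical in
theorem prod_filter {Q : Type} [Group Q] (f : X → Q) (L : List X) :
    ((L.filter (fun x => f x ≠ 1)).map f).prod = (L.map f).prod := by
  induction L with
  | nil => simp
  | cons a L ih =>
    by_cases h : f a = 1
    · rw [List.filter_cons_of_neg (by simpa using h), ih, List.map_cons, List.prod_cons, h, one_mul]
    · rw [List.filter_cons_of_pos (by simpa using h), List.map_cons, List.prod_cons, ih,
        List.map_cons, List.prod_cons]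

theorem prod_eq (h3 : GoalA3) (hP : Proj t d) (hE : Exact t d E D) {Q : Type} [Group Q]
    (l : ℕ → ℕ → Q) (i : ℕ) (y z : X) (L : List X) (hL : L.Nodup)
    (hp : L.Pairwise (fun x x' => E x x' z)) (hsub : ∀ x ∈ L, x ∈ HH t D y z)
    (hsup : ∀ x ∈ HH t D y z, l i (D x y z) ≠ 1 → x ∈ L) :
    phi h3 hP hE l i y z = (L.map (fun x => l i (D x y z))).prod := by
  classical
  obtain ⟨a1, a2, a3⟩ := lst_spec h3 hP hE y z
  have hasym := (h3 X t d E D hP hE y z).2.2.2.1
  unfold phi
  rw [← prod_filter (fun x => l i (D x y z)) (lst h3 hP hE y z),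
    ← prod_filter (fun x => l i (D x y z)) L]
  congr 2
  refine sorted_unique (fun x x' => E x x' z) _ _ (a1.filter _) (hL.filter _) ?_
    (a3.filter _) (hp.filter _) ?_
  · intro x
    simp only [List.mem_filter, a2]
    constructor
    · rintro ⟨h, h'⟩
      exact ⟨hsup x h (by simpa using h'), h'⟩
    · rintro ⟨h, h'⟩
      exact ⟨hsub x h, h'⟩
  · intro a ha b hb hab h h'
    simp only [List.mem_filter, a2] at ha hb
    exact hasym a ha.1 b hb.1 hab h h'

theorem cross (h3 : GoalA3) (hP : Proj t d) (hE : Exact t d E D) (y z w x x' : X)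
    (hx : x ∈ HH t D y z) (hx' : x' ∈ HH t D y z) (hne : x ≠ x') (hxw : x ≠ w) (hxw' : x' ≠ w)
    (e1 : E x z w) (e2 : E x' y w) : E x x' z := by
  obtain ⟨-, -, htot, -, h5, -⟩ := h3 X t d E D hP hE y z
  rcases htot x hx x' hx' hne with h | h
  · exact h
  exfalso
  have ht := hP.pos
  have h6 : E x x' y := (h5 x' hx' x hx hne.symm).1 h
  have h7 : D x x' w = D x y w := hE.dcongr x x' y w hne.symm hx.1.symm hxw.symm h6
  have h8 : D x z y = D x w y := hE.dcongr x z w y hx.2.1.symm hxw.symm hx.1.symm e1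
  rw [hE.dsymm x z y hx.2.1.symm hx.1.symm, hE.dsymm x w y hxw.symm hx.1.symm] at h8
  have h9 : 8 * t < D x x' w := by
    have := hx.2.2
    omega
  have h10 : E x' x w := hE.strong x x' w hne hxw' hxw h9
  have h11 : E x' z w := hE.etrans x' z x w (hE.esymm _ _ _ h) h10
  have h12 : E x' z y := hE.etrans x' z w y h11 (hE.esymm _ _ _ e2)
  have h13 := hE.near x' y z hx'.1.symm hx'.2.1.symm (hE.esymm _ _ _ h12)
  have := hx'.2.2
  omega

theorem prod_rev {Q : Type} [Group Q] (f : X → Q) (hf : ∀ x, f x * f x = 1) (b : List X) :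
    (b.reverse.map f).prod = ((b.map f).prod)⁻¹ := by
  rw [List.prod_inv_reverse, List.map_map, List.map_reverse]
  congr 3
  funext x
  simp only [Function.comp]
  exact (inv_eq_of_mul_eq_one_left (hf x)).symm

theorem goalA5 (h3 : GoalA3) (h4 : GoalA4) : GoalA5 := by
  classical
  intro X t d E D hP hE Q _ l hinv hbig huniq
  have ht := hP.pos
  refine ⟨phi h3 hP hE l, ?_, ?_, ?_⟩
  · intro g hg i y z
    unfold phi
    rw [lst_inv h3 hP hE g hg, List.map_map]
    congr 1
    apply List.map_congr_left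
    intro x hx
    rw [(lst_spec h3 hP hE y z).2.1] at hx
    simp only [Function.comp]
    rw [(hE.inv g hg x y z hx.1.symm hx.2.1.symm).2]
  · intro y z w
    obtain ⟨F0, hF0, hF4⟩ := h4 X t d E D hP hE y z w
    let idx : ℕ → ℕ := fun n => if h : ∃ j, l j n ≠ 1 then Classical.choose h else 0
    let S : Finset ℕ := (F0.image (fun x => D x y z) ∪ F0.image (fun x => D x z w)) ∪
      (F0.image (fun x => D x y w) ∪ {D w y z, D y z w, D z y w})
    have hS : S.card ≤ 12 := by
      have c1 : (F0.image (fun x => D x y z)).card ≤ 3 := Finset.card_image_le.trans hF0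
      have c2 : (F0.image (fun x => D x z w)).card ≤ 3 := Finset.card_image_le.trans hF0
      have c3 : (F0.image (fun x => D x y w)).card ≤ 3 := Finset.card_image_le.trans hF0
      have c4 : ({D w y z, D y z w, D z y w} : Finset ℕ).card ≤ 3 := Finset.card_le_three
      have c5 := Finset.card_union_le (F0.image (fun x => D x y z)) (F0.image (fun x => D x z w))
      have c6 := Finset.card_union_le (F0.image (fun x => D x y w))
        ({D w y z, D y z w, D z y w} : Finset ℕ)
      have c7 := Finset.card_union_le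
        (F0.image (fun x => D x y z) ∪ F0.image (fun x => D x z w))
        (F0.image (fun x => D x y w) ∪ {D w y z, D y z w, D z y w})
      change ((F0.image (fun x => D x y z) ∪ F0.image (fun x => D x z w)) ∪
        (F0.image (fun x => D x y w) ∪ {D w y z, D y z w, D z y w})).card ≤ 12
      omega
    refine ⟨S.image idx, Finset.card_image_le.trans hS, ?_⟩
    intro i hi
    have hone : ∀ n ∈ S, l i n = 1 := by
      intro n hn
      by_contra h
      apply hi
      rw [Finset.mem_image]
      refine ⟨n, hn, ?_⟩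
      have hex : ∃ j, l j n ≠ 1 := ⟨i, h⟩
      have e : idx n = Classical.choose hex := dif_pos hex
      rw [e]
      exact huniq _ _ n (Classical.choose_spec hex) h
    have s1 : ∀ x ∈ F0, D x y z ∈ S := fun x hx =>
      Finset.mem_union_left _ (Finset.mem_union_left _ (Finset.mem_image_of_mem _ hx))
    have s2 : ∀ x ∈ F0, D x z w ∈ S := fun x hx =>
      Finset.mem_union_left _ (Finset.mem_union_right _ (Finset.mem_image_of_mem _ hx))
    have s3 : ∀ x ∈ F0, D x y w ∈ S := fun x hx =>
      Finset.mem_union_right _ (Finset.mem_union_left _ (Finset.mem_image_of_mem _ hx))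
    have s4 : D w y z ∈ S := Finset.mem_union_right _ (Finset.mem_union_right _ (by simp))
    have s5 : D y z w ∈ S := Finset.mem_union_right _ (Finset.mem_union_right _ (by simp))
    have s6 : D z y w ∈ S := Finset.mem_union_right _ (Finset.mem_union_right _ (by simp))
    -- the three sets
    let Ay : Set X := {x | x ≠ y ∧ x ≠ z ∧ x ≠ w ∧ l i (D x y z) ≠ 1 ∧ E x z w}
    let Az : Set X := {x | x ≠ y ∧ x ≠ z ∧ x ≠ w ∧ l i (D x y z) ≠ 1 ∧ E x y w}
    let Aw : Set X := {x | x ≠ y ∧ x ≠ z ∧ x ≠ w ∧ l i (D x z w) ≠ 1 ∧ E x y z}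
    have fy : ∀ x ∈ Ay, D x y w = D x y z := by
      rintro x ⟨a1, a2, a3, a4, a5⟩
      have := hE.dcongr x z w y a2.symm a3.symm a1.symm a5
      rw [hE.dsymm x y w a1.symm a3.symm, hE.dsymm x y z a1.symm a2.symm]
      exact this.symm
    have fz : ∀ x ∈ Az, D x z w = D x y z := by
      rintro x ⟨a1, a2, a3, a4, a5⟩
      have := hE.dcongr x y w z a1.symm a3.symm a2.symm a5
      rw [hE.dsymm x z w a2.symm a3.symm]
      exact this.symm
    have fw : ∀ x ∈ Aw, D x y w = D x z w := by
      rintro x ⟨a1, a2, a3, a4, a5⟩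
      exact hE.dcongr x y z w a1.symm a2.symm a3.symm a5
    have y1 : ∀ x ∈ Ay, x ∈ HH t D y z := fun x hx => ⟨hx.1, hx.2.1, hbig i _ hx.2.2.2.1⟩
    have y2 : ∀ x ∈ Ay, x ∈ HH t D y w := fun x hx =>
      ⟨hx.1, hx.2.2.1, by rw [fy x hx]; exact hbig i _ hx.2.2.2.1⟩
    have z1 : ∀ x ∈ Az, x ∈ HH t D y z := fun x hx => ⟨hx.1, hx.2.1, hbig i _ hx.2.2.2.1⟩
    have z2 : ∀ x ∈ Az, x ∈ HH t D z w := fun x hx =>
      ⟨hx.2.1, hx.2.2.1, by rw [fz x hx]; exact hbig i _ hx.2.2.2.1⟩
    have w1 : ∀ x ∈ Aw, x ∈ HH t D z w := fun x hx => ⟨hx.2.1, hx.2.2.1, hbig i _ hx.2.2.2.1⟩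
    have w2 : ∀ x ∈ Aw, x ∈ HH t D y w := fun x hx =>
      ⟨hx.1, hx.2.2.1, by rw [fw x hx]; exact hbig i _ hx.2.2.2.1⟩
    obtain ⟨fin1, -, tot1, asym1, five1, tr1⟩ := h3 X t d E D hP hE y z
    obtain ⟨fin2, -, tot2, asym2, five2, tr2⟩ := h3 X t d E D hP hE z w
    obtain ⟨fin3, -, tot3, asym3, five3, tr3⟩ := h3 X t d E D hP hE y w
    obtain ⟨a, na, ma, pa⟩ := exists_sorted (fun x x' => E x x' z) Ay (fin1.subset y1)
      (fun p hp q hq => tot1 p (y1 p hp) q (y1 q hq))
      (fun p hp q hq r hr e1 e2 e3 e4 e5 => tr1 p (y1 p hp) q (y1 q hq) r (y1 r hr) e1 e2 e3 e4 e5)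
    obtain ⟨b, nb, mb, pb⟩ := exists_sorted (fun x x' => E x x' z) Az (fin1.subset z1)
      (fun p hp q hq => tot1 p (z1 p hp) q (z1 q hq))
      (fun p hp q hq r hr e1 e2 e3 e4 e5 => tr1 p (z1 p hp) q (z1 q hq) r (z1 r hr) e1 e2 e3 e4 e5)
    obtain ⟨c, nc, mc, pc⟩ := exists_sorted (fun x x' => E x x' w) Aw (fin2.subset w1)
      (fun p hp q hq => tot2 p (w1 p hp) q (w1 q hq))
      (fun p hp q hq r hr e1 e2 e3 e4 e5 => tr2 p (w1 p hp) q (w1 q hq) r (w1 r hr) e1 e2 e3 e4 e5)
    -- membership in pairwise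
    have pw : ∀ (L : List X) (r : X → X → Prop), L.Nodup → L.Pairwise r →
        L.Pairwise (fun x x' => x ∈ L ∧ x' ∈ L ∧ (r x x' ∧ x ≠ x')) :=
      fun L r h1 h2 => List.Pairwise.and_mem.1 (h2.and h1)
    have pa' : a.Pairwise (fun x x' => E x x' w) := by
      refine (pw a _ na pa).imp ?_
      rintro x x' ⟨hx, hx', h, hne⟩
      rw [ma] at hx hx'
      exact (five3 x (y2 x hx) x' (y2 x' hx') hne).2
        ((five1 x (y1 x hx) x' (y1 x' hx') hne).1 h)
    have pb' : b.reverse.Pairwise (fun x x' => E x x' w) := by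
      rw [List.pairwise_reverse]
      refine (pw b _ nb pb).imp ?_
      rintro x x' ⟨hx, hx', h, hne⟩
      rw [mb] at hx hx'
      exact (five2 x' (z2 x' hx') x (z2 x hx) hne.symm).2 h
    -- disjointness
    have nyz : ∀ x, x ∈ Ay → x ∈ Az → False := by
      intro x hx hx'
      have := hE.near x y z hx.1.symm hx.2.1.symm
        (hE.etrans x y w z hx'.2.2.2.2 (hE.esymm _ _ _ hx.2.2.2.2))
      have := (y1 x hx).2.2
      omega
    have nzw : ∀ x, x ∈ Az → x ∈ Aw → False := by
      intro x hx hx'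
      have := hE.near x z w hx.2.1.symm hx.2.2.1.symm
        (hE.etrans x z y w (hE.esymm _ _ _ hx'.2.2.2.2) hx.2.2.2.2)
      have := (z2 x hx).2.2
      omega
    have nyw : ∀ x, x ∈ Ay → x ∈ Aw → False := by
      intro x hx hx'
      have := hE.near x y w hx.1.symm hx.2.2.1.symm
        (hE.etrans x y z w hx'.2.2.2.2 hx.2.2.2.2)
      have := (y2 x hx).2.2
      omega
    have ncross : ∀ (L L' : List X) (P P' : Set X), (∀ x, x ∈ L ↔ x ∈ P) →
        (∀ x, x ∈ L' ↔ x ∈ P') → (∀ x, x ∈ P → x ∈ P' → False) → L.Nodup → L'.Nodup →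
        (L ++ L').Nodup := by
      intro L L' P P' h1 h2 h3 h4 h5
      rw [List.nodup_append]
      refine ⟨h4, h5, ?_⟩
      intro x hx x' hx' h
      subst h
      exact h3 x ((h1 x).1 hx) ((h2 x).1 hx')
    -- the three products
    have e1 : phi h3 hP hE l i y z = ((a ++ b).map (fun x => l i (D x y z))).prod := by
      refine prod_eq h3 hP hE l i y z _ (ncross a b Ay Az ma mb nyz na nb) ?_ ?_ ?_
      · rw [List.pairwise_append]
        refine ⟨pa, pb, ?_⟩
        intro x hx x' hx'
        rw [ma] at hx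
        rw [mb] at hx'
        have hne : x ≠ x' := fun h => nyz x hx (h ▸ hx')
        exact cross h3 hP hE y z w x x' (y1 x hx) (z1 x' hx') hne hx.2.2.1 hx'.2.2.1
          hx.2.2.2.2 hx'.2.2.2.2
      · intro x hx
        rw [List.mem_append, ma, mb] at hx
        exact hx.elim (y1 x) (z1 x)
      · intro x hx hl
        rw [List.mem_append, ma, mb]
        have hxw : x ≠ w := by
          intro h
          subst h
          exact hl (hone _ s4)
        have hxF : x ∉ F0 := fun h => hl (hone _ (s1 x h))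
        rcases hF4 x hxF hx.1 hx.2.1 hxw (Or.inl hx.2.2) with h | h | h
        · have := hE.near x y z hx.1.symm hx.2.1.symm h
          have := hx.2.2
          omega
        · exact Or.inl ⟨hx.1, hx.2.1, hxw, hl, h⟩
        · exact Or.inr ⟨hx.1, hx.2.1, hxw, hl, h⟩
    have e2 : phi h3 hP hE l i z w = ((b.reverse ++ c).map (fun x => l i (D x z w))).prod := by
      have mb' : ∀ x, x ∈ b.reverse ↔ x ∈ Az := fun x => by rw [List.mem_reverse]; exact mb x
      refine prod_eq h3 hP hE l i z w _
        (ncross b.reverse c Az Aw mb' mc nzw (List.nodup_reverse.2 nb) nc) ?_ ?_ ?_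
      · rw [List.pairwise_append]
        refine ⟨pb', pc, ?_⟩
        intro x hx x' hx'
        rw [mb'] at hx
        rw [mc] at hx'
        have hne : x ≠ x' := fun h => nzw x hx (h ▸ hx')
        exact cross h3 hP hE z w y x x' (z2 x hx) (w1 x' hx') hne hx.1 hx'.1
          (hE.esymm _ _ _ hx.2.2.2.2) (hE.esymm _ _ _ hx'.2.2.2.2)
      · intro x hx
        rw [List.mem_append, mb', mc] at hx
        exact hx.elim (z2 x) (w1 x)
      · intro x hx hl
        rw [List.mem_append, mb', mc]
        have hxy : x ≠ y := by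
          intro h
          subst h
          exact hl (hone _ s5)
        have hxF : x ∉ F0 := fun h => hl (hone _ (s2 x h))
        rcases hF4 x hxF hxy hx.1 hx.2.1 (Or.inr (Or.inl hx.2.2)) with h | h | h
        · exact Or.inr ⟨hxy, hx.1, hx.2.1, hl, h⟩
        · have := hE.near x z w hx.1.symm hx.2.1.symm h
          have := hx.2.2
          omega
        · refine Or.inl ⟨hxy, hx.1, hx.2.1, ?_, h⟩
          have := hE.dcongr x y w z hxy.symm hx.2.1.symm hx.1.symm h
          rw [hE.dsymm x w z hx.2.1.symm hx.1.symm] at this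
          rw [this]
          exact hl
    have e3 : phi h3 hP hE l i y w = ((a ++ c).map (fun x => l i (D x y w))).prod := by
      refine prod_eq h3 hP hE l i y w _ (ncross a c Ay Aw ma mc nyw na nc) ?_ ?_ ?_
      · rw [List.pairwise_append]
        refine ⟨pa', pc, ?_⟩
        intro x hx x' hx'
        rw [ma] at hx
        rw [mc] at hx'
        have hne : x ≠ x' := fun h => nyw x hx (h ▸ hx')
        exact cross h3 hP hE y w z x x' (y2 x hx) (w2 x' hx') hne hx.2.1 hx'.2.1
          (hE.esymm _ _ _ hx.2.2.2.2) hx'.2.2.2.2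
      · intro x hx
        rw [List.mem_append, ma, mc] at hx
        exact hx.elim (y2 x) (w2 x)
      · intro x hx hl
        rw [List.mem_append, ma, mc]
        have hxz : x ≠ z := by
          intro h
          subst h
          exact hl (hone _ s6)
        have hxF : x ∉ F0 := fun h => hl (hone _ (s3 x h))
        rcases hF4 x hxF hx.1 hxz hx.2.1 (Or.inr (Or.inr hx.2.2)) with h | h | h
        · refine Or.inr ⟨hx.1, hxz, hx.2.1, ?_, h⟩
          rw [← hE.dcongr x y z w hx.1.symm hxz.symm hx.2.1.symm h]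
          exact hl
        · refine Or.inl ⟨hx.1, hxz, hx.2.1, ?_, h⟩
          have := hE.dcongr x z w y hxz.symm hx.2.1.symm hx.1.symm h
          rw [hE.dsymm x z y hxz.symm hx.1.symm, hE.dsymm x w y hx.2.1.symm hx.1.symm] at this
          rw [this]
          exact hl
        · have := hE.near x y w hx.1.symm hx.2.1.symm h
          have := hx.2.2
          omega
    have g1 : b.reverse.map (fun x => l i (D x z w)) = b.reverse.map (fun x => l i (D x y z)) := by
      apply List.map_congr_left
      intro x hx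
      rw [List.mem_reverse, mb] at hx
      rw [fz x hx]
    have g2 : a.map (fun x => l i (D x y w)) = a.map (fun x => l i (D x y z)) := by
      apply List.map_congr_left
      intro x hx
      rw [ma] at hx
      rw [fy x hx]
    have g3 : c.map (fun x => l i (D x y w)) = c.map (fun x => l i (D x z w)) := by
      apply List.map_congr_left
      intro x hx
      rw [mc] at hx
      rw [fw x hx]
    rw [e1, e2, e3]
    simp only [List.map_append, List.prod_append]
    rw [g1, g2, g3, prod_rev (fun x => l i (D x y z)) (fun x => hinv _ _) b]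
    group
  · intro i y z x hxy hxz hx
    unfold phi
    obtain ⟨a1, a2, a3⟩ := lst_spec h3 hP hE y z
    rw [List.prod_map_eq_pow_single x]
    · by_cases h : x ∈ lst h3 hP hE y z
      · rw [List.count_eq_one_of_mem a1 h, pow_one]
      · rw [List.count_eq_zero_of_not_mem h, pow_zero]
        by_contra h'
        apply h
        rw [a2]
        exact ⟨hxy, hxz, hbig i _ (fun h'' => h' h''.symm)⟩
    · intro x' hne hx'
      rw [a2] at hx'
      by_contra h
      exact hne (hx x' hx'.1 hx'.2.1 h)

end main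

end Pool.Agent.Helper40.PQ
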